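import Pool.Agent.H82.PRP.Stmts

/-!
# Board ppg, module CENT: central elements of order `p` in normal subgroups of finite p-groups
-/

namespace Pool.Agent.H82.PRP

theorem cent_thm : CENTStmt := by
  intro p _ P _ _ hP M hM hne
  have hp : p.Prime := Fact.out
  have hPc : IsPGroup p (ConjAct P) := hP.of_equiv ConjAct.toConjAct
  have hMP : IsPGroup p M := hP.to_subgroup M
  have hMnt : Nontrivial M := (Subgroup.nontrivial_iff_ne_bot M).2 hne
  have hdvd : p ∣ Nat.card M := by
    obtain ⟨n, hn0, hn⟩ := hMP.nontrivial_iff_card.mp hMnt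
    rw [hn]
    exact dvd_pow_self _ hn0.ne'
  obtain ⟨b, hb, hb1⟩ := hPc.exists_fixed_point_of_prime_dvd_card_of_fixed_point M hdvd
    (a := (1 : M)) (by
      intro g
      exact smul_one g)
  have hcen : ∀ g : P, g * (b : P) = (b : P) * g := by
    intro g
    have h1 := hb (ConjAct.toConjAct g)
    have h2 : g * (b : P) * g⁻¹ = (b : P) := congrArg Subtype.val h1
    calc g * (b : P) = g * (b : P) * g⁻¹ * g := by rw [inv_mul_cancel_right]
      _ = (b : P) * g := by rw [h2]
  have hbne : (b : P) ≠ 1 := fun h => hb1 (Subtype.ext h.symm)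
  obtain ⟨k, hk⟩ := (IsPGroup.iff_orderOf.1 hP) (b : P)
  rcases k with _ | k
  · exact absurd (orderOf_eq_one_iff.1 (by rw [hk, pow_zero])) hbne
  · refine ⟨(b : P) ^ (p ^ k), M.pow_mem b.2 _, ?_, ?_, fun g => ?_⟩
    · intro h
      have h1 := orderOf_dvd_of_pow_eq_one h
      rw [hk] at h1
      have h2 := (Nat.pow_dvd_pow_iff_le_right hp.one_lt).1 h1
      omega
    · rw [← pow_mul, ← pow_succ, ← hk]
      exact pow_orderOf_eq_one _
    · have h1 : Commute g (b : P) := hcen g
      exact h1.pow_right _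

end Pool.Agent.H82.PRP
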