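import Pool.Agent.H82.PRP.Stmts

/-!
# Board ppg, module CPT: intersections of decreasing closed subgroups
-/

namespace Pool.Agent.H82.PRP

theorem cpt_thm : CPTStmt := by
  intro p _ F _ _ _ _ _ gen D hD M hanti hclosed n
  by_contra hcon
  push Not at hcon
  have hopen : IsOpen (((⨅ m, M m) ⊔ D n : Subgroup F) : Set F) :=
    Subgroup.isOpen_mono le_sup_right (hD.isOpen n)
  have hne : ∀ m, ((M m : Set F) \ (((⨅ m, M m) ⊔ D n : Subgroup F) : Set F)).Nonempty := by
    intro m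
    obtain ⟨x, hx, hx'⟩ := SetLike.not_le_iff_exists.1 (hcon m)
    exact ⟨x, hx, hx'⟩
  have hcl : ∀ m, IsClosed ((M m : Set F) \ (((⨅ m, M m) ⊔ D n : Subgroup F) : Set F)) :=
    fun m => (hclosed m).sdiff hopen
  obtain ⟨x, hx⟩ := IsCompact.nonempty_iInter_of_sequence_nonempty_isCompact_isClosed
    (fun m => (M m : Set F) \ (((⨅ m, M m) ⊔ D n : Subgroup F) : Set F))
    (fun m x hx => ⟨hanti (Nat.le_succ m) hx.1, hx.2⟩) hne (hcl 0).isCompact hcl
  rw [Set.mem_iInter] at hx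
  apply (hx 0).2
  apply Subgroup.mem_sup_left
  rw [Subgroup.mem_iInf]
  exact fun m => (hx m).1

end Pool.Agent.H82.PRP
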