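import Pool.Agent.H82.PRP.Stmts

/-!
# Board ppg, module LIFT: lifting the solvability property
-/

namespace Pool.Agent.H82.PRP

namespace LIFT

/-- The subgroup of right periods of a function. -/
def per {F X : Type} [Group F] (f : F → X) : Subgroup F where
  carrier := {l | ∀ x, f (x * l) = f x}
  mul_mem' := by
    intro a b ha hb x
    rw [← mul_assoc, hb, ha]
  one_mem' := by
    intro x
    rw [mul_one]
  inv_mem' := by
    intro a ha x
    have h := ha (x * a⁻¹)
    rw [inv_mul_cancel_right] at h
    exact h.symm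

theorem rinv_sup {F X : Type} [Group F] {f : F → X} {A B : Subgroup F} (hA : RInv A f)
    (hB : RInv B f) : RInv (A ⊔ B) f := by
  have h : A ⊔ B ≤ per f := sup_le (fun a ha x => hA x a ha) (fun b hb x => hB x b hb)
  intro x l hl
  exact h hl x

theorem claim (hSTEP : STEPStmt) (hCENT : CENTStmt) (p : ℕ) [Fact p.Prime] (F : Type) [Group F]
    [TopologicalSpace F] [IsTopologicalGroup F] [CompactSpace F] [T2Space F] (gen : Fin 3 → F)
    (D : ℕ → Subgroup F) (hD : FPP p F gen D) (M : Subgroup F) (hM : M.Normal) (T : Type)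
    (r : T → F) (hr : ∀ n, {τ | r τ ∉ D n}.Finite) (hS : Solv (p := p) D r M) :
    ∀ j : ℕ, ∀ W : Subgroup F, W.Normal → W.index = j → (∃ n, D n ≤ W) →
      Solv (p := p) D r (M ⊓ W) := by
  have hp : p.Prime := Fact.out
  intro j
  induction j using Nat.strong_induction_on with
  | _ j ih =>
    intro W hW hj hn
    obtain ⟨n, hn⟩ := hn
    by_cases hMW : M ≤ W
    · rw [inf_eq_left.2 hMW]
      exact hS
    · obtain ⟨k, hk⟩ := hD.index n
      have hdvd : W.index ∣ p ^ k := by
        rw [← hk]
        exact Subgroup.index_dvd_of_le hn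
      have hW0 : W.index ≠ 0 := fun h0 => by
        rw [h0, zero_dvd_iff] at hdvd
        exact (pow_pos hp.pos k).ne' hdvd
      have hfi : W.FiniteIndex := ⟨hW0⟩
      have hfin : Finite (F ⧸ W) := Subgroup.finite_quotient_of_finiteIndex
      obtain ⟨i, -, hi⟩ := (Nat.dvd_prime_pow hp).1 hdvd
      have hPG : IsPGroup p (F ⧸ W) := IsPGroup.of_card (n := i) (by
        rw [← hi]
        rfl)
      have hsurj : Function.Surjective (QuotientGroup.mk' W) := QuotientGroup.mk'_surjective W
      have hMn : (M.map (QuotientGroup.mk' W)).Normal := hM.map _ hsurj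
      have hMne : M.map (QuotientGroup.mk' W) ≠ ⊥ := by
        intro h0
        apply hMW
        intro x hx
        have h1 : QuotientGroup.mk' W x ∈ M.map (QuotientGroup.mk' W) :=
          Subgroup.mem_map_of_mem _ hx
        rw [h0, Subgroup.mem_bot] at h1
        exact (QuotientGroup.eq_one_iff x).1 h1
      obtain ⟨cb, hcb, hc1, hcp, hcc⟩ := hCENT p (F ⧸ W) hPG _ hMn hMne
      obtain ⟨c, hcM, rfl⟩ := Subgroup.mem_map.1 hcb
      have hcW : c ∉ W := fun h => hc1 ((QuotientGroup.eq_one_iff c).2 h)
      -- the larger subgroup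
      have hzn : (Subgroup.zpowers (QuotientGroup.mk' W c)).Normal := by
        refine ⟨fun z hz g => ?_⟩
        obtain ⟨e, rfl⟩ := Subgroup.mem_zpowers_iff.1 hz
        have hcomm : Commute g ((QuotientGroup.mk' W c) ^ e) := by
          have h1 : Commute g (QuotientGroup.mk' W c) := hcc g
          exact h1.zpow_right e
        rw [hcomm.eq, mul_inv_cancel_right]
        exact hz
      have hW'n : ((Subgroup.zpowers (QuotientGroup.mk' W c)).comap
          (QuotientGroup.mk' W)).Normal := hzn.comap _
      have hWW' : W ≤ (Subgroup.zpowers (QuotientGroup.mk' W c)).comap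
          (QuotientGroup.mk' W) := by
        intro x hx
        rw [Subgroup.mem_comap]
        have : QuotientGroup.mk' W x = 1 := (QuotientGroup.eq_one_iff x).2 hx
        rw [this]
        exact Subgroup.one_mem _
      have hcW' : c ∈ (Subgroup.zpowers (QuotientGroup.mk' W c)).comap
          (QuotientGroup.mk' W) := by
        rw [Subgroup.mem_comap]
        exact Subgroup.mem_zpowers _
      have hlt : W < (Subgroup.zpowers (QuotientGroup.mk' W c)).comap
          (QuotientGroup.mk' W) := lt_of_le_of_ne hWW' (fun h => hcW (h ▸ hcW'))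
      have hidx := Subgroup.index_strictAnti hlt
      have hIH := ih _ (hj ▸ hidx) _ hW'n rfl ⟨n, hn.trans hWW'⟩
      have hLn : (M ⊓ W).Normal := inferInstance
      have hL : M ⊓ (Subgroup.zpowers (QuotientGroup.mk' W c)).comap (QuotientGroup.mk' W) =
          (M ⊓ W) ⊔ Subgroup.zpowers c := by
        apply le_antisymm
        · intro x hx
          obtain ⟨hxM, hxW'⟩ := Subgroup.mem_inf.1 hx
          rw [Subgroup.mem_comap, Subgroup.mem_zpowers_iff] at hxW'
          obtain ⟨e, he⟩ := hxW'
          have h1 : x * (c ^ e)⁻¹ ∈ W := by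
            apply (QuotientGroup.eq_one_iff _).1
            have h2 : QuotientGroup.mk' W (x * (c ^ e)⁻¹) = 1 := by
              rw [map_mul, map_inv, map_zpow, he, mul_inv_cancel]
            exact h2
          have h3 : x * (c ^ e)⁻¹ ∈ M := M.mul_mem hxM (M.inv_mem (M.zpow_mem hcM e))
          have h4 : x = (x * (c ^ e)⁻¹) * c ^ e := by rw [inv_mul_cancel_right]
          rw [h4]
          exact Subgroup.mul_mem _ (Subgroup.mem_sup_left ⟨h3, h1⟩)
            (Subgroup.mem_sup_right (Subgroup.zpow_mem _ (Subgroup.mem_zpowers c) e))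
        · refine sup_le (le_inf inf_le_left (inf_le_right.trans hWW')) ?_
          rw [Subgroup.zpowers_le]
          exact ⟨hcM, hcW'⟩
      rw [hL] at hIH
      refine hSTEP p F gen D hD (M ⊓ W) hLn c (Subgroup.mem_inf.2 ⟨M.pow_mem hcM p, ?_⟩)
        (fun w => Subgroup.mem_inf.2 ⟨?_, ?_⟩)
        ⟨n, ?_⟩ T r hr hIH
      · apply (QuotientGroup.eq_one_iff _).1
        have h2 : QuotientGroup.mk' W (c ^ p) = 1 := by rw [map_pow, hcp]
        exact h2
      · have h5 := M.mul_mem hcM (hM.conj_mem _ (M.inv_mem hcM) w)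
        have h6 : c * w * c⁻¹ * w⁻¹ = c * (w * c⁻¹ * w⁻¹) := by simp only [mul_assoc]
        rw [h6]
        exact h5
      · apply (QuotientGroup.eq_one_iff _).1
        have h2 : QuotientGroup.mk' W (c * w * c⁻¹ * w⁻¹) = 1 := by
          rw [map_mul, map_mul, map_mul, map_inv, map_inv, ← hcc, mul_inv_cancel_right,
            mul_inv_cancel]
        exact h2
      · intro h
        exact hcW ((sup_le inf_le_right hn) h)

end LIFT

theorem lift_thm (hSTEP : STEPStmt) (hCENT : CENTStmt) : LIFTStmt := by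
  intro p _ F _ _ _ _ _ gen D hD M hM T r hr hS N hN hNM f hf1 hf2 hf3
  obtain ⟨n, hn⟩ := hf2
  have hDn : (D n).Normal := hD.normal n
  have hWn : (N ⊔ D n).Normal := inferInstance
  have hSW := LIFT.claim hSTEP hCENT p F gen D hD M hM T r hr hS _ (N ⊔ D n) hWn rfl
    ⟨n, le_sup_right⟩
  obtain ⟨δ, h1, h2, h3⟩ := hSW f hf1 ⟨n, hn⟩ (fun t x l hl =>
    LIFT.rinv_sup (hf3 t) (hn t) x l hl.2)
  exact ⟨δ, h1, fun w x l hl => h2 w x l ⟨hNM hl, Subgroup.mem_sup_left hl⟩, h3⟩

end Pool.Agent.H82.PRP
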